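import Mathlib
import Pool.Agent.Helper577.ScalingDefs
import Pool.Agent.Helper577.ScalingFinal

namespace Pool.Agent.Results.MP_5e7104_an.CardinalOffset

open MeasureTheory Pool.Agent.Helper577

/-- There is a continuous, compactly supported orthogonal scaling function that is cardinal with
some offset `t₀` and index `P`. -/
theorem result : ∃ φ : ℝ → ℂ, Continuous φ ∧ HasCompactSupport φ ∧
    IsOrthogonalScalingFunction φ ∧ ∃ (P : ℤ) (t₀ : ℝ), IsCardinal φ t₀ P := by
  obtain ⟨s, hs, t, ht, hX, hY⟩ := cross'
  have G := good hs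
  refine ⟨phc s, G.cont, G.supp, isScaling G, 0, t, fun k => ?_⟩
  have hs1 := s_ne hs
  have a1 : aa s t = 1 := by unfold aa; rw [hX]; field_simp
  have c0 : cc s t = 0 := by unfold cc; rw [hY]; simp
  unfold phc
  rcases lt_trichotomy k 0 with hk | hk | hk
  · rw [if_neg hk.ne, ph_le_zero]
    · simp
    · have : (k : ℝ) ≤ -1 := by exact_mod_cast (by omega : k ≤ -1)
      linarith [ht.2]
  · subst hk
    rw [if_pos rfl]
    simp only [Int.cast_zero, add_zero]
    rw [ph_le_one t (by linarith [ht.2]), a1]
    simp
  · rw [if_neg hk.ne']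
    rcases eq_or_lt_of_le (by omega : 1 ≤ k) with h1 | h1
    · rw [← h1]
      simp only [Int.cast_one]
      rw [ph_mid hs (t + 1) (by linarith [ht.1]) (by linarith [ht.2])]
      rw [show t + 1 - 1 = t by ring, a1, c0]
      simp
    · rcases eq_or_lt_of_le (by omega : 2 ≤ k) with h2 | h2
      · rw [← h2]
        simp only [Int.cast_ofNat]
        rw [ph_ge_two (t + 2) (by linarith [ht.1])]
        rw [show t + 2 - 2 = t by ring, c0]
        simp
      · rw [ph_ge_three]
        · simp
        · have : (3 : ℝ) ≤ k := by exact_mod_cast (by omega : 3 ≤ k)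
          linarith [ht.1]

end Pool.Agent.Results.MP_5e7104_an.CardinalOffset
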